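import Mathlib.Data.Set.Finite.Basic
import Mathlib.Data.List.OfFn
import Mathlib.Data.Set.Finite.Range
import Mathlib.Order.Interval.Finset.Nat
import Mathlib.Algebra.Ring.Parity

/-! The building race seen from the second player: an invariant that can be kept for ever
shows that the first player has no winning strategy. -/

set_option autoImplicit false

open Set

namespace Pool.Agent.MP_32430d_co.Six

theorem exists_seq {α : Type} (F : ∀ n : ℕ, (Fin n → α) → α) :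
    ∃ x : ℕ → α, ∀ n, x n = F n fun i => x i :=
  ⟨fun n => Nat.strongRec (fun n ih => F n fun i => ih i i.2) n, fun n =>
    Nat.strongRec_eq _ n⟩

theorem draw {α : Type} [Infinite α] {Own : Set α → Prop} {Inv : Set α → Set α → Prop}
    (mono : ∀ P Q, P ⊆ Q → Own P → Own Q) (h0 : Inv ∅ ∅)
    (step : ∀ X Y x, Inv X Y → Disjoint X Y → x ∉ X → x ∉ Y →
      (¬ Own (insert x X) ∨ Own Y) ∧ ∃ p, p ∉ insert x X ∧ Inv (insert x X) (insert p Y)) :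
    ¬ ∃ σ : List α → α, ∀ x : ℕ → α,
      (∀ k : ℕ, x (2 * k) = σ (List.ofFn (fun i : Fin (2 * k) => x i))) →
      (∀ k : ℕ, ∀ j : ℕ, j < 2 * k + 1 → x (2 * k + 1) ≠ x j) →
      (∀ k : ℕ, ∀ j : ℕ, j < 2 * k → x (2 * k) ≠ x j) ∧
      ∃ n : ℕ, Own {p | ∃ i : ℕ, i ≤ n ∧ p = x (2 * i)} ∧
        ¬ Own {p | ∃ i : ℕ, i < n ∧ p = x (2 * i + 1)} := by
  classical
  rintro ⟨σ, hσ⟩
  have key : ∀ X Y : Set α, ∃ p, X.Finite → Y.Finite → p ∉ X ∧ p ∉ Y ∧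
      ((∃ q, q ∉ X ∧ ∃ Z, Z ⊆ insert q Y ∧ Inv X Z) → ∃ Z, Z ⊆ insert p Y ∧ Inv X Z) := fun X Y => by
    by_cases f : X.Finite ∧ Y.Finite
    · obtain ⟨p, hp⟩ := (f.1.union f.2).exists_notMem
      by_cases c : ∃ q, q ∉ X ∧ ∃ Z, Z ⊆ insert q Y ∧ Inv X Z
      · obtain ⟨q, h1, Z, h2, h3⟩ := c
        by_cases d : q ∈ Y
        · exact ⟨p, fun _ _ => ⟨fun e => hp (Or.inl e), fun e => hp (Or.inr e), fun _ =>
            ⟨Z, h2.trans (insert_subset (Or.inr d) (subset_insert _ _)), h3⟩⟩⟩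
        · exact ⟨q, fun _ _ => ⟨h1, d, fun _ => ⟨Z, h2, h3⟩⟩⟩
      · exact ⟨p, fun _ _ => ⟨fun e => hp (Or.inl e), fun e => hp (Or.inr e), fun e => absurd e c⟩⟩
    · exact ⟨Classical.arbitrary α, fun a b => absurd ⟨a, b⟩ f⟩
  choose R hR using key
  obtain ⟨x, hx⟩ := exists_seq fun n h => if n % 2 = 0 then σ (List.ofFn h) else
    R {p | ∃ i : Fin n, i.1 % 2 = 0 ∧ p = h i} {p | ∃ i : Fin n, i.1 % 2 = 1 ∧ p = h i}
  have fin : ∀ (f : ℕ → ℕ) (k : ℕ), {p | ∃ i < k, p = x (f i)}.Finite := fun f k =>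
    ((finite_lt_nat k).image fun i => x (f i)).subset fun p ⟨i, a, b⟩ => ⟨i, a, b.symm⟩
  have ins : ∀ (f : ℕ → ℕ) (k : ℕ), {p | ∃ i < k + 1, p = x (f i)} =
      insert (x (f k)) {p | ∃ i < k, p = x (f i)} := fun f k => by
    ext p
    simp only [mem_ofPred_eq, mem_insert_iff, Nat.lt_succ_iff_lt_or_eq]
    exact ⟨fun ⟨i, a, b⟩ => a.elim (fun a => Or.inr ⟨i, a, b⟩) fun a => Or.inl (a ▸ b),
      fun a => a.elim (fun a => ⟨k, Or.inr rfl, a⟩) fun ⟨i, a, b⟩ => ⟨i, Or.inl a, b⟩⟩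
  have odd : ∀ k, x (2 * k + 1) =
      R {p | ∃ i < k + 1, p = x (2 * i)} {p | ∃ i < k, p = x (2 * i + 1)} := fun k => by
    rw [hx, if_neg (by omega)]
    congr 1
    · ext p
      exact ⟨fun ⟨i, a, b⟩ => ⟨i.1 / 2, by omega, b.trans (congrArg x (by omega))⟩,
        fun ⟨i, a, b⟩ => ⟨⟨2 * i, by omega⟩, by simp, b⟩⟩
    · ext p
      exact ⟨fun ⟨i, a, b⟩ => ⟨i.1 / 2, by omega, b.trans (congrArg x (by omega))⟩,
        fun ⟨i, a, b⟩ => ⟨⟨2 * i + 1, by omega⟩, by simp [Nat.add_mod], b⟩⟩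
  have leg : ∀ k j, j < 2 * k + 1 → x (2 * k + 1) ≠ x j := fun k j hj e => by
    obtain ⟨a, b, -⟩ := hR _ _ (fin (2 * ·) (k + 1)) (fin (2 * · + 1) k)
    rw [← odd] at a b
    rcases Nat.even_or_odd' j with ⟨i, rfl | rfl⟩
    exacts [a ⟨i, by omega, e⟩, b ⟨i, by omega, e⟩]
  obtain ⟨l1, n, w1, w2⟩ := hσ x (fun k => by rw [hx, if_pos (by omega)]) leg
  have dis : ∀ k, Disjoint {p | ∃ i < k, p = x (2 * i)} {p | ∃ i < k, p = x (2 * i + 1)} :=
    fun k => disjoint_left.2 fun p ⟨i, _, b⟩ ⟨j, _, d⟩ => by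
      rcases lt_or_gt_of_ne (show 2 * i ≠ 2 * j + 1 by omega) with h | h
      exacts [leg j _ h (d.symm.trans b), l1 i _ h (b.symm.trans d)]
  have st : ∀ k Z, Z ⊆ {p | ∃ i < k, p = x (2 * i + 1)} → Inv {p | ∃ i < k, p = x (2 * i)} Z → _ :=
    fun k Z a b => step _ _ (x (2 * k)) b ((dis k).mono_right a)
      (fun ⟨i, c, d⟩ => l1 k _ (by omega) d) fun e => (a e).elim fun i c => l1 k _ (by omega) c.2
  have main : ∀ k, ∃ Z, Z ⊆ {p | ∃ i < k, p = x (2 * i + 1)} ∧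
      Inv {p | ∃ i < k, p = x (2 * i)} Z := fun k => by
    induction k with
    | zero => exact ⟨∅, empty_subset _, by simpa using h0⟩
    | succ k ih =>
      obtain ⟨Z, a, b⟩ := ih
      obtain ⟨-, p, c, d⟩ := st k Z a b
      rw [← ins (2 * ·)] at c d
      rw [ins (2 * · + 1), odd]
      exact (hR _ _ (fin (2 * ·) (k + 1)) (fin (2 * · + 1) k)).2.2
        ⟨p, c, _, insert_subset_insert a, d⟩
  obtain ⟨Z, a, b⟩ := main n
  rcases (st n Z a b).1 with h | h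
  · rw [← ins (2 * ·)] at h
    exact h (by simpa [Nat.lt_succ_iff] using w1)
  · exact w2 (mono _ _ a h)

end Pool.Agent.MP_32430d_co.Six
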