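import Pool.Agent.MP_32430d_co.six.Late

/-! The opening of the second player and the invariant. -/

set_option autoImplicit false

open Set Complex

namespace Pool.Agent.MP_32430d_co.Six

namespace Dat

variable {G : Dat}

/-- the points of `A` other than `x₁, x₂` are isolated -/
def Iso (G : Dat) (A : Set ℂ) (x₁ x₂ y : ℂ) : Prop := ∀ x ∈ A, x ≠ x₁ → x ≠ x₂ →
  (∀ p ∈ G.Z x₁ x₂, p ≠ y → G.Far x p) ∧ ∀ p ∈ A, p ≠ x → G.Far x p

structure Base (G : Dat) (A M : Set ℂ) (x₁ x₂ y : ℂ) : Prop where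
  iso : G.Iso A x₁ x₂ y
  gen : ∀ m ∈ M, m ≠ y → ∀ p ∈ G.Z x₁ x₂ ∪ A, p ≠ y → G.Far m p

variable {A M B X Y W : Set ℂ} {x₁ x₂ y w x c u : ℂ}

theorem cls (h : G.Base A M x₁ x₂ y) (BM : B ⊆ M)
    (b3 : (∃ b, W ∩ B ⊆ {b}) ∨ (w ∉ W ∧ ∃ b b', W ∩ B ⊆ {b, b'})) (hX : X ⊆ A ∪ B ∪ {w, x})
    (hy : y ∉ X) (hW : G.IsW W) :
    (W ∩ X).ncard ≤ 3 ∨ (x₁ ∈ W ∧ x₂ ∈ W ∧ W ∩ X ⊆ {x₁, x₂, w, x}) := by
  have n : ∀ p ∈ X, p ≠ y := fun p a e => hy (e ▸ a)
  by_cases k : ∃ b ∈ W ∩ X, b ∈ B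
  · obtain ⟨b, ⟨a1, a2⟩, a3⟩ := k
    have s : ∀ p ∈ W ∩ X, p ∈ W ∩ B ∨ p = w ∨ p = x := fun p ⟨d, e⟩ => by
      rcases hX e with (f | f) | f
      exacts [absurd (h.gen b (BM a3) (n b a2) p (Or.inr f) (n p e)) (hW.near a1 d),
        Or.inl ⟨d, f⟩, Or.inr f]
    left
    rcases b3 with ⟨b, e⟩ | ⟨f, b, b', e⟩
    · exact le3 (a := b) (b := w) (c := x) fun p a => (s p a).imp (fun d => e d) id
    · refine le3 (a := b) (b := b') (c := x) fun p a => ?_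
      rcases s p a with d | rfl | d
      exacts [(e d).imp id Or.inl, absurd a.1 f, Or.inr (Or.inr d)]
  have s : ∀ p ∈ W ∩ X, p ∈ A ∨ p = w ∨ p = x := fun p a => by
    rcases hX a.2 with (f | f) | f
    exacts [Or.inl f, absurd ⟨p, a, f⟩ k, Or.inr f]
  by_cases k' : ∃ o ∈ W, o ∈ A ∧ o ≠ x₁ ∧ o ≠ x₂
  · obtain ⟨o, a1, a2, a3, a4⟩ := k'
    refine Or.inl (le3 (a := o) (b := w) (c := x) fun p a => (s p a).imp (fun d => ?_) id)
    by_contra e
    exact hW.near a1 a.1 ((h.iso o a2 a3 a4).2 p d e)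
  have s' : ∀ p ∈ W ∩ X, p = x₁ ∨ p = x₂ ∨ p = w ∨ p = x := fun p a => by
    by_contra! e
    exact k' ⟨p, a.1, (s p a).resolve_right (not_or.2 e.2.2), e.1, e.2.1⟩
  by_cases e1 : x₁ ∈ W
  · by_cases e2 : x₂ ∈ W
    · exact Or.inr ⟨e1, e2, s'⟩
    · exact Or.inl (le3 (a := x₁) (b := w) (c := x) fun p a =>
        (s' p a).imp id fun d => d.resolve_left fun f => e2 (f ▸ a.1))
  · exact Or.inl (le3 (a := x₂) (b := w) (c := x) fun p a =>
      (s' p a).resolve_left fun f => e1 (f ▸ a.1))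

theorem cls4 (h : G.Base A M x₁ x₂ y) (BM : B ⊆ M)
    (b3 : (∃ b, W ∩ B ⊆ {b}) ∨ (w ∉ W ∧ ∃ b b', W ∩ B ⊆ {b, b'})) (hX : X ⊆ A ∪ B ∪ {w, x})
    (hy : y ∉ X) (hW : G.IsW W) : (W ∩ X).ncard ≤ 4 :=
  (cls h BM b3 hX hy hW).elim (fun a => by omega) fun a => le4 a.2.2

theorem notOwn (h : ∀ W, G.IsW W → (W ∩ X).ncard ≤ 4) : ¬ G.Own X := fun ⟨W, a, b⟩ => by
  obtain ⟨p, c, e⟩ := a.room (X := X) (by have := h W a; omega)
  exact e (b c)

theorem free (h : G.Base A M x₁ x₂ y) (g : Good G M B w c u)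
    (hX : X ⊆ G.Z x₁ x₂ ∪ A ∪ B ∪ {w, x}) (hy : y ∉ X) {t : ℤ × Bool} (hx : G.cell c u t ≠ x) :
    G.cell c u t ∉ X := fun e => by
  have n : G.cell c u t ≠ y := fun f => hy (f ▸ e)
  rcases hX e with (f | f) | f | f
  exacts [(h.gen _ (g.cM t) n _ f n).ne rfl, g.cB t f, g.wM (f ▸ g.cM t), hx f]

/-- the first player runs along one of the circle systems through `x₁, x₂` -/
def Side (G : Dat) (A B : Set ℂ) (x₁ x₂ : ℂ) (X Y : Set ℂ) : Prop := ∃ a v, ‖v‖ = 1 ∧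
  range (G.cell a v) ⊆ G.Z x₁ x₂ ∧ X ⊆ (A \ {x₁, x₂} ∪ B) ∪ range (G.cell a v) ∧ G.Run a v X Y

theorem outside (h : G.Base A M x₁ x₂ y) (BM : B ⊆ M) {o p : ℂ} (ho : o ∈ A \ {x₁, x₂} ∪ B)
    (n : o ≠ y) (hp : p ∈ G.Z x₁ x₂) (n' : p ≠ y) : G.Far o p :=
  ho.elim (fun a => (h.iso o a.1 (fun e => a.2 (Or.inl e)) fun e => a.2 (Or.inr e)).1 p hp n')
    fun a => h.gen o (BM a) n p (Or.inl hp) n'

theorem side4 (h : G.Base A M x₁ x₂ y) (g : Good G M B w c u) {a v : ℂ} (hv : ‖v‖ = 1)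
    (hZ : range (G.cell a v) ⊆ G.Z x₁ x₂) (hX : X ⊆ (A \ {x₁, x₂} ∪ B) ∪ range (G.cell a v))
    (hy : y ∉ X) (hW : G.IsW W) (k : 4 ≤ (W ∩ X).ncard) : ∃ j : ℤ, W = G.Win a (v * G.z ^ j) := by
  have n : ∀ p ∈ X, p ≠ y := fun p a e => hy (e ▸ a)
  by_cases o : ∃ o ∈ W ∩ X, o ∈ A \ {x₁, x₂} ∪ B
  · obtain ⟨o, ⟨a1, a2⟩, a3⟩ := o
    have s : W ∩ X ⊆ A \ {x₁, x₂} ∪ B := fun p b => (hX b.2).resolve_right fun d =>
      hW.near a1 b.1 (outside h g.BM a3 (n o a2) (hZ d) (n p b.2))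
    rcases cls (X := W ∩ X) (x := w) h g.BM (g.b3 W hW)
      (fun p b => Or.inl ((s b).imp And.left id)) (fun b => hy b.2) hW with e | ⟨-, -, e⟩
    · rw [← inter_assoc, inter_self] at e
      omega
    · have := le3 (S := W ∩ X) (a := x₁) (b := x₂) (c := w) fun p b => by simpa using e ⟨b.1, b⟩
      omega
  · exact hW.four hv (k.trans (ncard_le_ncard
      (fun p b => ⟨b.1, (hX b.2).resolve_left fun d => o ⟨p, b, d⟩⟩) (hW.fin.inter_of_left _)))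

/-- the second player owns four consecutive points with both rays free -/
def P3 (G : Dat) (X Y : Set ℂ) : Prop := ∃ (A M B : Set ℂ) (x₁ x₂ y w x c u : ℂ),
  G.Base A M x₁ x₂ y ∧ Good G M B w c u ∧ y ∈ Y ∧ (∀ t, G.cell c u t ≠ x) ∧
  (∀ j, -1 ≤ j → j ≤ 2 → G.cell c u (j, false) ∈ Y) ∧
  (X ⊆ A ∪ B ∪ {w, x} ∨ G.Side A B x₁ x₂ X Y)

theorem step3 {x' : ℂ} (h : G.P3 X Y) (d : Disjoint X Y) (hx : x' ∉ Y) :
    ¬ G.Own (insert x' X) ∧ ∃ p, p ∉ insert x' X ∧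
      (G.P3 (insert x' X) (insert p Y) ∨ G.P4 (insert x' X) (insert p Y)) := by
  obtain ⟨A, M, B, x₁, x₂, y, w, x, c, u, h, g, hy, h1, h2, h3⟩ := h
  have y0 : y ∉ X := disjoint_right.1 d hy
  have nt : G.NoT X Y := fun W a b => by
    rcases h3 with e | ⟨a', v, hv, e1, e2, e3⟩
    · exact cls4 h g.BM (g.b3 W a) e y0 a
    · by_contra! k
      obtain ⟨j, rfl⟩ := side4 h g hv e1 e2 y0 a k.le
      exact (e3.le hv b).not_gt k
  refine ⟨nt.notOwn d hx, ?_⟩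
  by_cases t : ∃ W, G.IsW W ∧ Disjoint W Y ∧ 5 ≤ (W ∩ insert x' X).ncard
  · obtain ⟨W, a, b, k⟩ := t
    have k1 := a.ins X x'
    have k2 := nt W a b
    have k3 : x' ∈ W := by
      by_contra e
      rw [inter_insert_of_notMem e] at k
      omega
    suffices ∃ p, p ∉ insert x' X ∧ G.Side A B x₁ x₂ (insert x' X) (insert p Y) from
      this.imp fun p e => ⟨e.1, Or.inl ⟨A, M, B, x₁, x₂, y, w, x, c, u, h, g, Or.inr hy, h1,
        fun j a b => Or.inr (h2 j a b), Or.inr e.2⟩⟩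
    rcases h3 with e | ⟨a', v, hv, e1, e2, e3⟩
    · obtain ⟨m1, m2, m3⟩ := (cls h g.BM (g.b3 W a) e y0 a).resolve_left (by omega)
      have m4 : w ∈ W := by
        by_contra f
        have := le3 (S := W ∩ X) (a := x₁) (b := x₂) (c := x) fun p q => by
          simpa [show p ≠ w from fun r => f (r ▸ q.1)] using m3 q
        omega
      have m5 : x ∈ W := by
        by_contra f
        have := le3 (S := W ∩ X) (a := x₁) (b := x₂) (c := w) fun p q => by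
          simpa [show p ≠ x from fun r => f (r ▸ q.1)] using m3 q
        omega
      have s : ∀ p ∈ insert x' X, p ∈ A \ {x₁, x₂} ∪ B ∨ p ∈ W := by
        rintro p (rfl | q)
        · exact Or.inr k3
        rcases e q with (f | f) | rfl | rfl
        · by_cases r : p ∈ ({x₁, x₂} : Set ℂ)
          · rcases r with rfl | rfl
            exacts [Or.inr m1, Or.inr m2]
          · exact Or.inl (Or.inl ⟨f, r⟩)
        exacts [Or.inl (Or.inr f), Or.inr m4, Or.inr m5]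
      obtain ⟨p, p1, p2⟩ := a.room (X := insert x' X) (by omega)
      obtain ⟨a', v, hv, rfl⟩ := a
      have z : range (G.cell a' v) ⊆ G.Z x₁ x₂ := fun p q => ⟨a', v, hv, m1, m2, q⟩
      refine ⟨p, p2, a', v, hv, z, fun q r => (s q r).imp id fun f => image_subset_range _ _ f,
        Run.start hv (fun t r => (s _ r).resolve_left fun f => ?_)
          fun f => disjoint_left.1 f p1 (Or.inl rfl)⟩
      have n : G.cell a' v t ≠ y := fun e => r.elim (fun r => hx (r ▸ e ▸ hy)) fun r => y0 (e ▸ r)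
      exact (outside h g.BM f n (z ⟨t, rfl⟩) n).ne rfl
    · obtain ⟨j, rfl⟩ := side4 h g hv e1 e2 y0 a (by omega)
      obtain ⟨p, p1, p2⟩ := e3.step hv b k
      refine ⟨p, p1, a', v, hv, e1, insert_subset (Or.inr ?_) e2, p2⟩
      rcases G.mem_Win.1 k3 with ⟨i, -, -, rfl⟩ | rfl <;> exact ⟨_, rfl⟩
  have core : X ⊆ G.Z x₁ x₂ ∪ A ∪ B ∪ {w, x} := fun p q => by
    rcases h3 with e | ⟨a', v, hv, e1, e2, e3⟩
    · exact (e q).imp (Or.imp Or.inr id) id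
    · exact Or.inl ((e2 q).elim (Or.imp (fun f => Or.inr f.1) id) fun f => Or.inl (Or.inl (e1 f)))
  have fr : ∀ t, G.cell c u t ∉ X := fun t => free h g core y0 (h1 t)
  have nt' : G.NoT (insert x' X) Y := fun W a b => by
    by_contra! k
    exact t ⟨W, a, b, k⟩
  have q3 : ∀ j W, G.IsW W → Disjoint W Y → G.cell c u (j, true) ∈ W →
      (W ∩ insert x' X).ncard ≤ 3 := fun j W a b q => by
    have n : ∀ p ∈ W, p ≠ y := fun p r e => disjoint_left.1 b r (e ▸ hy)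
    have s : ∀ p ∈ W ∩ insert x' X, p = x' ∨ p = x ∨ p = w ∨ p ∈ W ∩ B := by
      rintro p ⟨r, rfl | f⟩
      · exact Or.inl rfl
      rcases core f with (f | f) | f | f
      exacts [absurd (h.gen _ (g.cM _) (n _ q) p f (n p r)) (a.near q r),
        Or.inr (Or.inr (Or.inr ⟨r, f⟩)), Or.inr (Or.inr (Or.inl f)), Or.inr (Or.inl f)]
    rcases g.b4 W a j q with e | ⟨e, b, f⟩
    · exact le3 (a := x') (b := x) (c := w) fun p r =>
        (s p r).imp id (Or.imp id fun k => k.resolve_right fun l => e l)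
    · exact le3 (a := x') (b := x) (c := b) fun p r =>
        (s p r).imp id (Or.imp id fun k => f (k.resolve_left fun l => e (l ▸ r.1)))
  by_cases r : ∃ t : ℤ × Bool, 1 ≤ t.1 ∧ x' = G.cell c u t
  · obtain ⟨t', r, rfl⟩ := r
    have k : ∀ s : ℤ × Bool, s.1 ≤ 0 → G.cell c u s ∉ insert (G.cell c u t') X := fun s a e =>
      e.elim (fun e => by have := congrArg Prod.fst (G.cell_inj c g.hu e); omega) (fr s)
    exact (ready (δ := -1) (k := 0) g.hu (Or.inr rfl) (fun m a b => h2 _ (by omega) (by omega))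
      (fun m a => k _ (by omega)) (fun m a => ⟨k _ (by omega), q3 _⟩) nt').imp
      fun p a => ⟨a.1, Or.inr a.2⟩
  · have k : ∀ s : ℤ × Bool, 1 ≤ s.1 → G.cell c u s ∉ insert x' X := fun s a e =>
      e.elim (fun e => r ⟨s, a, e.symm⟩) (fr s)
    exact (ready (δ := 1) (k := 1) g.hu (Or.inl rfl) (fun m a b => h2 _ (by omega) (by omega))
      (fun m a => k _ (by omega)) (fun m a => ⟨k _ (by omega), q3 _⟩) nt').imp
      fun p a => ⟨a.1, Or.inr a.2⟩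

/-- the second player owns three consecutive points of the last circle of the zigzag -/
def P2 (G : Dat) (X Y : Set ℂ) : Prop := ∃ (A : Set ℂ) (x₁ x₂ y w c u : ℂ) (n : ℤ)
  (β : ℤ → ℤ × Bool), G.Base A (G.M c u) x₁ x₂ y ∧ ‖u‖ = 1 ∧ w ∉ G.M c u ∧ (∀ i, Outer (β i)) ∧
  y ∈ Y ∧ (∀ j, -1 ≤ j → j ≤ 1 → c + u * G.zc n (j, false) ∈ Y) ∧ X ⊆ A ∪ G.Bl c u n β ∪ {w}

theorem step2 (h : G.P2 X Y) (d : Disjoint X Y) (hx : x ∉ Y) :
    ¬ G.Own (insert x X) ∧ ∃ p, p ∉ insert x X ∧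
      (G.P2 (insert x X) (insert p Y) ∨ G.P3 (insert x X) (insert p Y)) := by
  obtain ⟨A, x₁, x₂, y, w, c, u, n, β, h, hu, hw, hβ, hy, h1, h2⟩ := h
  have y0 : y ∉ insert x X := disjoint_right.1 (disjoint_insert_left.2 ⟨hx, d⟩) hy
  have g := good hu hw hβ n
  have s : insert x X ⊆ A ∪ G.Bl c u n β ∪ {w, x} :=
    insert_subset (Or.inr (Or.inr rfl)) fun p a => (h2 a).imp id Or.inl
  refine ⟨notOwn fun W a => cls4 h g.BM (g.b3 W a) s y0 a, ?_⟩
  by_cases e : ∃ t, x = c + u * G.zc n t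
  · obtain ⟨t, rfl⟩ := e
    have o : Outer t := by
      refine ⟨?_, ?_, ?_⟩ <;> rintro rfl <;> exact hx (h1 _ (by omega) (by omega))
    have hβ' : ∀ i, Outer (Function.update β n t i) := fun i => by
      by_cases e : i = n
      · simpa [e] using o
      · simpa [e] using hβ i
    have s' : insert (c + u * G.zc n t) X ⊆ A ∪ G.Bl c u (n + 1) (Function.update β n t) ∪ {w} := by
      refine insert_subset (Or.inl (Or.inr ⟨n, by omega, by simp⟩)) fun p a =>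
        (h2 a).imp (Or.imp id ?_) id
      rintro ⟨i, b, rfl⟩
      exact ⟨i, by omega, by rw [Function.update_of_ne b.ne]⟩
    have g' := good hu hw hβ' (n + 1)
    refine ⟨c + u * G.zc (n + 1) (-eps n, false), ?_, Or.inl ⟨A, x₁, x₂, y, w, c, u, n + 1, _, h,
      hu, hw, hβ', Or.inr hy, fun j a b => ?_, s'⟩⟩
    · rw [← G.cell_zc c u (n + 1)]
      exact free (x := w) h g' (fun p a => (s' a).imp (Or.imp Or.inr id) Or.inl) y0
        fun e => hw (e ▸ g'.cM _)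
    · have := eps_cases n
      rcases (by omega : j = -eps n ∨ j = 0 ∨ j = eps n) with rfl | rfl | rfl
      · exact Or.inl rfl
      · exact Or.inr ((G.zc_succ n).1 ▸ h1 _ (by omega) (by omega))
      · exact Or.inr ((G.zc_succ n).2 ▸ h1 _ (by omega) (by omega))
  · have k : ∀ t, G.cell (c + u * G.cc n) (u * eps n) t ≠ x :=
      fun t f => e ⟨t, by rw [← f, cell_zc]⟩
    refine ⟨_, free h g (fun p a => (s a).imp (Or.imp Or.inr id) id) y0 (k (2, false)),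
      Or.inr ⟨A, _, _, x₁, x₂, y, w, x, _, _, h, g, Or.inr hy, k, fun j a b => ?_, Or.inl s⟩⟩
    rcases b.lt_or_eq with b | rfl
    exacts [Or.inr (by rw [cell_zc]; exact h1 j a (by omega)), Or.inl rfl]

/-- the second player owns two consecutive points in a generic direction -/
def P1 (G : Dat) (X Y : Set ℂ) : Prop := ∃ x₁ x₂ c u : ℂ, x₁ ≠ x₂ ∧ X.Countable ∧ ‖u‖ = 1 ∧
  G.Base X (G.M c u) x₁ x₂ (G.cell c u (-1, false)) ∧ G.cell c u (-1, false) ∈ Y ∧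
  G.cell c u (0, false) ∈ Y

theorem restart (h : x₁ ≠ x₂) (hX : X.Countable) (hy : y ∈ Y) (y0 : y ∉ X)
    (i : G.Iso X x₁ x₂ y) : ∃ p, p ∉ X ∧ G.P1 X (insert p Y) := by
  obtain ⟨u, hu, g⟩ := G.generic ((G.Z_countable h).union hX) y
  have e : G.cell (y - u * G.E (-1, false)) u (-1, false) = y := sub_add_cancel _ _
  refine ⟨G.cell (y - u * G.E (-1, false)) u (0, false), fun a => ?_, x₁, x₂, _, u, h, hX, hu,
    e.symm ▸ ⟨i, g⟩, Or.inr (e.symm ▸ hy), Or.inl rfl⟩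
  have n : G.cell (y - u * G.E (-1, false)) u (0, false) ≠ y := fun f => y0 (f ▸ a)
  exact (g _ ⟨_, E_mem _, rfl⟩ n _ (Or.inr a) n).ne rfl

theorem step1 (h : G.P1 X Y) (d : Disjoint X Y) (hx : x ∉ Y) :
    ¬ G.Own (insert x X) ∧ ∃ p, p ∉ insert x X ∧
      (G.P1 (insert x X) (insert p Y) ∨ G.P2 (insert x X) (insert p Y)) := by
  obtain ⟨x₁, x₂, c, u, h0, hX, hu, h, hy, h1⟩ := h
  have y0 := disjoint_right.1 (disjoint_insert_left.2 ⟨hx, d⟩) hy
  refine ⟨notOwn fun W a => cls4 (B := ∅) (w := x) (x := x) h (empty_subset _)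
    (Or.inl ⟨0, by simp⟩) (fun p b => b.elim (fun b => Or.inr (Or.inl b))
      fun b => Or.inl (Or.inl b)) y0 a, ?_⟩
  by_cases e : x ∈ G.M c u
  · have n : ∀ p ∈ insert x X, p ≠ G.cell c u (-1, false) := fun p a f => y0 (f ▸ a)
    have k := h.gen x e (n x (Or.inl rfl))
    refine (restart h0 (hX.insert x) hy y0 ?_).imp fun p a => ⟨a.1, Or.inl a.2⟩
    rintro o (rfl | a) b1 b2
    · exact ⟨fun p f => k p (Or.inl f),
        fun p f r => k p (Or.inr (f.resolve_left r)) (n p f)⟩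
    · refine ⟨(h.iso o a b1 b2).1, ?_⟩
      rintro p (rfl | f) r
      exacts [(k o (Or.inr a) (n o (Or.inr a))).symm, (h.iso o a b1 b2).2 p f r]
  · have o : ∀ _ : ℤ, Outer (0, true) := fun _ => by simp [Outer]
    have g := good hu e o 0
    have s : insert x X ⊆ X ∪ G.Bl c u 0 (fun _ => (0, true)) ∪ {x} :=
      insert_subset (Or.inr rfl) fun p a => Or.inl (Or.inl a)
    refine ⟨c + u * G.zc 0 (1, false), ?_, Or.inr ⟨X, x₁, x₂, _, x, c, u, 0, _, h, hu, e, o,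
      Or.inr hy, fun j a b => ?_, s⟩⟩
    · rw [← cell_zc]
      exact free (x := x) h g (fun p a => (s a).imp (Or.imp Or.inr id) Or.inl) y0
        fun f => e (f ▸ g.cM _)
    · rcases (by omega : j = -1 ∨ j = 0 ∨ j = 1) with rfl | rfl | rfl
      exacts [Or.inr (G.zc_zero _ ▸ hy), Or.inr (G.zc_zero _ ▸ h1), Or.inl rfl]

def Inv (G : Dat) (X Y : Set ℂ) : Prop := X = ∅ ∨ (∃ x y, X = {x} ∧ y ∈ Y) ∨ G.P1 X Y ∨
  G.P2 X Y ∨ G.P3 X Y ∨ G.P4 X Y ∨ G.Own Y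

theorem step (G : Dat) (X Y : Set ℂ) (x : ℂ) (h : G.Inv X Y) (d : Disjoint X Y) (h1 : x ∉ X)
    (h2 : x ∉ Y) : (¬ G.Own (insert x X) ∨ G.Own Y) ∧
      ∃ p, p ∉ insert x X ∧ G.Inv (insert x X) (insert p Y) := by
  rcases h with rfl | ⟨a, y, rfl, hy⟩ | h | h | h | h | h
  · obtain ⟨p, e⟩ := exists_ne x
    exact ⟨Or.inl (notOwn fun W _ => le4 (a := x) (b := x) (c := x) (d := x) fun p a => by
      simpa using a.2), p, by simpa using e, Or.inr (Or.inl ⟨x, p, by simp, Or.inl rfl⟩)⟩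
  · refine ⟨Or.inl (notOwn fun W _ => le4 (a := x) (b := a) (c := a) (d := a) fun p a => by
      simpa using a.2), (restart (G := G) (x₁ := x) (x₂ := a) h1 (toFinite _).countable hy
        (disjoint_right.1 (disjoint_insert_left.2 ⟨h2, d⟩) hy) ?_).imp fun p a =>
        ⟨a.1, Or.inr (Or.inr (Or.inl a.2))⟩⟩
    exact fun o b b1 b2 => (b.elim b1 b2).elim
  · obtain ⟨a, p, b, e⟩ := step1 h d h2
    exact ⟨Or.inl a, p, b, Or.inr (Or.inr (e.imp id Or.inl))⟩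
  · obtain ⟨a, p, b, e⟩ := step2 h d h2
    exact ⟨Or.inl a, p, b, Or.inr (Or.inr (Or.inr (e.imp id Or.inl)))⟩
  · obtain ⟨a, p, b, e⟩ := step3 h d h2
    exact ⟨Or.inl a, p, b, Or.inr (Or.inr (Or.inr (Or.inr (e.imp id Or.inl))))⟩
  · obtain ⟨a, p, b, e⟩ := step4 h d h2
    exact ⟨Or.inl a, p, b, Or.inr (Or.inr (Or.inr (Or.inr (Or.inr e))))⟩
  · obtain ⟨p, b, e⟩ := step5 h d h2
    exact ⟨Or.inr h, p, b, Or.inr (Or.inr (Or.inr (Or.inr (Or.inr (Or.inr e)))))⟩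

end Dat

end Pool.Agent.MP_32430d_co.Six
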