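import Pool.Agent.MP_32430d_co.Four
import Mathlib.Analysis.SpecialFunctions.Complex.Log
import Mathlib.Analysis.Real.Cardinality
import Mathlib.LinearAlgebra.Countable
import Mathlib.Data.Set.Card

/-! Geometry of the copies of five consecutive points of a circle with one point on the axis. -/

set_option autoImplicit false

open Set Complex ComplexConjugate

namespace Pool.Agent.MP_32430d_co.Six

/-- a point `z` of the unit circle and a real `s`, with the coefficient functionals of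
`1` and of `s ^ 2` for the family `z ^ k * s ^ j` -/
structure Dat where
  z : ℂ
  s : ℝ
  hz : ‖z‖ = 1
  l : Bool → ℂ →+ ℚ
  l0 : ∀ (b : Bool) (k : ℤ), l b (z ^ k) = if k = 0 ∧ b = false then 1 else 0
  l1 : ∀ (b : Bool) (k : ℤ), l b (z ^ k * s) = 0
  l2 : ∀ (b : Bool) (k : ℤ), l b (z ^ k * s ^ 2) = if k = 0 ∧ b = true then 1 else 0

/-- the labels of the six points -/
def L : Finset (ℤ × Bool) :=
  {(-2, false), (-1, false), (0, false), (1, false), (2, false), (0, true)}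

theorem mem_L {t : ℤ × Bool} : t ∈ L ↔ -2 ≤ t.1 ∧ t.1 ≤ 2 ∧ (t.2 = true → t.1 = 0) := by
  obtain ⟨k, b⟩ := t
  cases b <;> simp [L] <;> omega

theorem count_exp {S : Set ℂ} (h : S.Countable) : {θ : ℝ | exp (θ * I) ∈ S}.Countable :=
  (countable_preimage_exp.2 h).preimage (f := fun θ : ℝ => (θ : ℂ) * I) fun a b e => by
    simpa using e

theorem count_exp' {S : Set ℂ} (h : S.Countable) : ∃ θ : ℝ, exp (θ * I) ∉ S := by
  by_contra! c
  exact not_countable_univ ((count_exp h).mono fun θ _ => c θ)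

theorem two_circ {w v : ℂ} {s : ℝ} (hs : s ≠ 1) (h1 : ‖w - 1‖ = ‖v - 1‖)
    (h2 : ‖w - s‖ = ‖v - s‖) : w = v ∨ w = conj v := by
  have a := congrArg (· ^ 2) h1
  have b := congrArg (· ^ 2) h2
  simp only [Complex.sq_norm, normSq_apply, sub_re, sub_im, one_re, one_im, ofReal_re,
    ofReal_im, sub_zero] at a b
  have c : w.re = v.re := mul_left_cancel₀ (sub_ne_zero.2 hs) (by linear_combination (a - b) / 2)
  have d : w.im = v.im ∨ w.im = -v.im := mul_self_eq_mul_self_iff.1 (by rw [c] at a; linarith)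
  exact d.imp (fun d => Complex.ext c d) fun d => Complex.ext c d

namespace Dat

variable (G : Dat)

noncomputable def E (t : ℤ × Bool) : ℂ := G.z ^ t.1 * if t.2 then (G.s : ℂ) else 1

noncomputable def B (b : Bool) : ℂ →+ ℂ →+ ℚ :=
  (AddMonoidHom.mul.compl₂ (starRingEnd ℂ).toAddMonoidHom).compr₂ (G.l b)

noncomputable def cell (c u : ℂ) (t : ℤ × Bool) : ℂ := c + u * G.E t

def Win (c u : ℂ) : Set ℂ := G.cell c u '' L

def IsW (W : Set ℂ) : Prop := ∃ c u, ‖u‖ = 1 ∧ W = G.Win c u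

def Far (x y : ℂ) : Prop := ∀ t ∈ L, ∀ r ∈ L, ‖x - y‖ ≠ ‖G.E t - G.E r‖

def Lam : Submodule ℤ ℂ := Submodule.span ℤ (range G.E)

def M (c u : ℂ) : Set ℂ := {p | ∃ a ∈ G.Lam, p = c + u * a}

def Z (x y : ℂ) : Set ℂ :=
  {p | ∃ c u, ‖u‖ = 1 ∧ x ∈ G.Win c u ∧ y ∈ G.Win c u ∧ p ∈ range (G.cell c u)}

theorem z0 : G.z ≠ 0 := fun e => by simpa [e] using G.hz

theorem conj_z (k : ℤ) : conj (G.z ^ k) = G.z ^ (-k) := by
  rw [map_zpow₀, ← Complex.inv_eq_conj G.hz, inv_zpow']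

theorem conj_E (t : ℤ × Bool) : conj (G.E t) = G.E (-t.1, t.2) := by
  simp only [E, map_mul, conj_z]
  split_ifs <;> simp

theorem z_E (k : ℤ) (t : ℤ × Bool) : G.z ^ k * G.E t = G.E (k + t.1, t.2) := by
  simp only [E, zpow_add₀ G.z0, mul_assoc]

theorem E_f (k : ℤ) : G.E (k, false) = G.z ^ k := by simp [E]

theorem norm_uz {u : ℂ} (hu : ‖u‖ = 1) (k : ℤ) : ‖u * G.z ^ k‖ = 1 := by
  simp [hu, G.hz]

theorem B_apply (b : Bool) (x y : ℂ) : G.B b x y = G.l b (x * conj y) := rfl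

theorem B_E (b : Bool) (t r : ℤ × Bool) :
    G.B b (G.E t) (G.E r) = if t = r ∧ t.2 = b then 1 else 0 := by
  obtain ⟨k, c⟩ := t
  obtain ⟨j, d⟩ := r
  have e : G.E (k, c) * conj (G.E (j, d)) =
      G.z ^ (k - j) * ((if c then (G.s : ℂ) else 1) * if d then (G.s : ℂ) else 1) := by
    rw [conj_E, E, E, sub_eq_add_neg, zpow_add₀ G.z0]
    ring
  rw [B_apply, e]
  cases c <;> cases d
  · simp [G.l0, sub_eq_zero, eq_comm]
  · simp [G.l1]
  · simp [G.l1]
  · simp [← sq, G.l2, sub_eq_zero, eq_comm]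

theorem B_norm {a a' : ℂ} (h : ‖a‖ = ‖a'‖) (b : Bool) : G.B b a a = G.B b a' a' := by
  rw [B_apply, B_apply, mul_conj', mul_conj', h]

theorem E_inj : Function.Injective G.E := fun t r e => by
  have := G.B_E t.2 t r
  rw [← e, B_E] at this
  by_contra c
  simp [c] at this

theorem cell_inj (c : ℂ) {u : ℂ} (hu : ‖u‖ = 1) : Function.Injective (G.cell c u) := fun _ _ e =>
  G.E_inj (mul_left_cancel₀ (by rintro rfl; simp at hu) (add_left_cancel e))

theorem norm_cell (c : ℂ) {u : ℂ} (hu : ‖u‖ = 1) (a b : ℂ) :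
    ‖c + u * a - (c + u * b)‖ = ‖a - b‖ := by
  rw [add_sub_add_left_eq_sub, ← mul_sub, norm_mul, hu, one_mul]

theorem mem_Win {c u p : ℂ} {k : ℤ} : p ∈ G.Win c (u * G.z ^ k) ↔
    (∃ j, k - 2 ≤ j ∧ j ≤ k + 2 ∧ p = G.cell c u (j, false)) ∨ p = G.cell c u (k, true) := by
  have e : ∀ t, G.cell c (u * G.z ^ k) t = G.cell c u (k + t.1, t.2) := fun t => by
    rw [cell, cell, mul_assoc, z_E]
  constructor
  · rintro ⟨⟨j, b⟩, h, rfl⟩
    obtain ⟨h1, h2, h3⟩ := mem_L.1 h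
    rw [e]
    cases b
    · exact Or.inl ⟨k + j, by omega, by omega, rfl⟩
    · exact Or.inr (by rw [h3 rfl, add_zero])
  · rintro (⟨j, h1, h2, rfl⟩ | rfl)
    · exact ⟨(j - k, false), mem_L.2 ⟨by omega, by omega, by simp⟩, by rw [e]; simp⟩
    · exact ⟨(0, true), mem_L.2 (by simp), by rw [e]; simp⟩

variable {G}

theorem Far.symm {x y : ℂ} (h : G.Far x y) : G.Far y x := fun t a r b => by
  rw [norm_sub_rev]
  exact h t a r b

theorem Far.ne {x y : ℂ} (h : G.Far x y) : x ≠ y := fun e =>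
  h (0, true) (by decide) (0, true) (by decide) (by simp [e])

theorem IsW.near {W : Set ℂ} (h : G.IsW W) {x y : ℂ} (hx : x ∈ W) (hy : y ∈ W) : ¬ G.Far x y := by
  obtain ⟨c, u, hu, rfl⟩ := h
  obtain ⟨t, a, rfl⟩ := hx
  obtain ⟨r, b, rfl⟩ := hy
  exact fun f => f t a r b (norm_cell c hu _ _)

theorem IsW.fin {W : Set ℂ} (h : G.IsW W) : W.Finite := by
  obtain ⟨c, u, -, rfl⟩ := h
  exact L.finite_toSet.image _

theorem IsW.card {W : Set ℂ} (h : G.IsW W) : W.ncard = 6 := by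
  obtain ⟨c, u, hu, rfl⟩ := h
  rw [Win, ncard_image_of_injective _ (G.cell_inj c hu), ncard_coe_finset]
  decide

/-- the norm forms of a difference of two points of one copy -/
theorem rel {c u x y a : ℂ} (hu : ‖u‖ = 1) (hx : x ∈ G.Win c u) (hy : y ∈ G.Win c u)
    (h : ‖x - y‖ = ‖a‖) : G.B false a a + G.B true a a ≤ 2 ∧ G.B true a a ≤ 1 ∧
      (x ≠ y → G.B true a a = 0 → ∃ i j, x = G.cell c u (i, false) ∧ y = G.cell c u (j, false)) := by
  obtain ⟨⟨i, b⟩, h1, rfl⟩ := hx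
  obtain ⟨⟨j, d⟩, h2, rfl⟩ := hy
  rw [← G.B_norm ((norm_cell c hu _ _).symm.trans h),
    ← G.B_norm ((norm_cell c hu _ _).symm.trans h)]
  simp only [map_sub, AddMonoidHom.sub_apply, B_E]
  cases b <;> cases d
  · refine ⟨?_, by simp, fun _ _ => ⟨i, j, rfl, rfl⟩⟩
    by_cases e : i = j
    · simp [e]
    · simp [e, Ne.symm e]
      norm_num
  · simp
    norm_num
  · simp
    norm_num
  · obtain rfl : i = 0 := (mem_L.1 h1).2.2 rfl
    obtain rfl : j = 0 := (mem_L.1 h2).2.2 rfl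
    simp

/-- two outer points of one circle system are never in one copy -/
theorem IsW.qq {W : Set ℂ} (h : G.IsW W) {c u : ℂ} (hu : ‖u‖ = 1) {i j : ℤ}
    (hi : G.cell c u (i, true) ∈ W) (hj : G.cell c u (j, true) ∈ W) : i = j := by
  obtain ⟨c', u', hu', rfl⟩ := h
  have := (rel hu' hi hj (norm_cell c hu _ _)).2.1
  by_contra e
  simp [B_E, e, Ne.symm e] at this
  norm_num at this

theorem IsW.four {W : Set ℂ} (h : G.IsW W) {c u : ℂ} (hu : ‖u‖ = 1)
    (h4 : 4 ≤ (W ∩ range (G.cell c u)).ncard) : ∃ k : ℤ, W = G.Win c (u * G.z ^ k) := by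
  have f := h.fin
  have s1 : (W ∩ range fun i : ℤ => G.cell c u (i, true)).ncard ≤ 1 := by
    rw [ncard_le_one (f.inter_of_left _)]
    rintro _ ⟨a, i, rfl⟩ _ ⟨b, j, rfl⟩
    rw [h.qq hu a b]
  have s2 := ncard_union_le (W ∩ range fun i : ℤ => G.cell c u (i, false))
    (W ∩ range fun i : ℤ => G.cell c u (i, true))
  have s3 : (W ∩ range (G.cell c u)).ncard ≤ _ := (ncard_le_ncard (by
    rintro _ ⟨a, ⟨i, b⟩, rfl⟩
    cases b
    exacts [Or.inl ⟨a, i, rfl⟩, Or.inr ⟨a, i, rfl⟩])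
    ((f.inter_of_left _).union (f.inter_of_left _))).trans s2
  obtain ⟨_, ⟨a1, i, rfl⟩, _, ⟨a2, j, rfl⟩, _, ⟨a3, k, rfl⟩, n1, n2, n3⟩ :=
    (two_lt_ncard (f.inter_of_left (range fun i : ℤ => G.cell c u (i, false)))).1 (by omega)
  obtain ⟨c', u', hu', rfl⟩ := h
  obtain ⟨i', j', e1, e2⟩ := (rel hu' a1 a2 (norm_cell c hu _ _)).2.2 n1 (by simp [B_E])
  obtain ⟨-, k', -, e3⟩ := (rel hu' a1 a3 (norm_cell c hu _ _)).2.2 n2 (by simp [B_E])
  have d : ∀ (c : ℂ) {u : ℂ}, ‖u‖ = 1 → ∀ i, dist (G.cell c u (i, false)) c = 1 :=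
    fun c u hu i => by rw [cell, dist_self_add_left, E_f, G.norm_uz hu]
  obtain rfl : c = c' := by
    by_contra e
    rcases EuclideanGeometry.eq_of_dist_eq_of_dist_eq_of_finrank_eq_two Complex.finrank_real_complex
      e n1 (d c hu i) (d c hu j) (d c hu k) ((congrArg (dist · c') e1).trans (d c' hu' i'))
      ((congrArg (dist · c') e2).trans (d c' hu' j')) ((congrArg (dist · c') e3).trans (d c' hu' k')) with h | h
    exacts [n2 h.symm, n3 h.symm]
  refine ⟨i - i', ?_⟩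
  have := add_left_cancel e1
  rw [E_f, E_f] at this
  rw [zpow_sub₀ G.z0, ← mul_div_assoc, this, mul_div_cancel_right₀ _ (zpow_ne_zero _ G.z0)]

theorem E_mem (t : ℤ × Bool) : G.E t ∈ G.Lam := Submodule.subset_span ⟨t, rfl⟩

theorem IsW.sub {W : Set ℂ} (h : G.IsW W) {c u x : ℂ} (hu : ‖u‖ = 1) (hm : x ∈ G.M c u)
    (hx : x ∈ W) (hy : x + u * (G.E (1, false) - G.E (-1, false)) ∈ W) : W ⊆ G.M c u := by
  obtain ⟨c', u', hu', rfl⟩ := h
  have v0 : G.E (1, false) - G.E (-1, false) ≠ 0 :=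
    sub_ne_zero.2 fun e => by simpa using G.E_inj e
  have u0 : u ≠ 0 := by rintro rfl; simp at hu
  obtain ⟨i, j, e1, e2⟩ := (rel (a := G.E (1, false) - G.E (-1, false)) hu' hy hx
    (by simp [hu])).2.2 (by simp [u0, v0]) (by simp [B_E])
  have e3 : u * (G.E (1, false) - G.E (-1, false)) = u' * (G.E (i, false) - G.E (j, false)) := by
    rw [cell] at e1 e2
    linear_combination e1 - e2
  have e4 : ‖G.E (1, false) - G.E (-1, false)‖ = ‖G.E (i, false) - G.E (j, false)‖ := by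
    simpa [hu, hu'] using congrArg norm e3
  have k : ∀ a b : ℤ, (G.z ^ a - G.z ^ b) * conj (G.z ^ a - G.z ^ b) * G.z ^ (2 : ℤ) =
      G.z ^ (2 : ℤ) + G.z ^ (2 : ℤ) - G.z ^ (a - b + 2) - G.z ^ (b - a + 2) := fun a b => by
    have := zpow_ne_zero a G.z0
    have := zpow_ne_zero b G.z0
    rw [map_sub, conj_z, conj_z, zpow_add₀ G.z0, zpow_add₀ G.z0, zpow_sub₀ G.z0, zpow_sub₀ G.z0,
      zpow_neg, zpow_neg]
    field_simp
    ring
  have e5 := k i j
  rw [E_f, E_f, E_f, E_f] at e4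
  rw [mul_conj', ← e4, ← mul_conj', k] at e5
  have e6 := congrArg (G.l false) e5
  simp only [map_sub, map_add, G.l0] at e6
  obtain ⟨a, ha, rfl⟩ := hm
  have fin : ∀ e m : ℤ, u' = e * (u * G.z ^ m) → G.Win c' u' ⊆ G.M c u := by
    rintro e m rfl _ ⟨t, -, rfl⟩
    refine ⟨a + e • (G.E (m + t.1, t.2) - G.E (m + j, false)), add_mem ha (Submodule.smul_mem _ _
      (sub_mem (E_mem _) (E_mem _))), ?_⟩
    rw [← G.z_E m t, ← G.z_E m (j, false), zsmul_eq_mul]
    rw [cell] at e2 ⊢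
    linear_combination -e2
  by_cases c1 : i = j + 2
  · refine fin 1 (-(j + 1)) ?_
    rw [show i = j + 1 + 1 by omega, ← G.z_E _ (1, false), show (j, false) = (j + 1 + -1, false) by
      simp, ← G.z_E _ (-1, false), ← mul_sub, ← mul_assoc] at e3
    rw [mul_right_cancel₀ v0 e3, zpow_neg, mul_inv_cancel_right₀ (zpow_ne_zero _ G.z0)]
    simp
  by_cases c2 : j = i + 2
  · refine fin (-1) (-(i + 1)) ?_
    rw [show j = i + 1 + 1 by omega, ← G.z_E _ (1, false), show (i, false) = (i + 1 + -1, false) by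
      simp, ← G.z_E _ (-1, false), ← mul_sub, ← mul_assoc, ← neg_sub (G.E (1, false)), mul_neg,
      ← neg_mul, ← neg_mul] at e3
    rw [mul_right_cancel₀ v0 e3, zpow_neg, mul_inv_cancel_right₀ (zpow_ne_zero _ G.z0)]
    simp
  simp [show i - j + 2 ≠ 0 by omega, show j - i + 2 ≠ 0 by omega] at e6

theorem Z_countable {x y : ℂ} (h : x ≠ y) : (G.Z x y).Countable := by
  refine (countable_range fun p : (ℤ × Bool) × (ℤ × Bool) × (ℤ × Bool) =>
    x + (x - y) / (G.E p.1 - G.E p.2.1) * (G.E p.2.2 - G.E p.1)).mono ?_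
  rintro _ ⟨c, u, -, ⟨t, -, rfl⟩, ⟨r, -, rfl⟩, q, rfl⟩
  have : G.E t - G.E r ≠ 0 := sub_ne_zero.2 fun e => h (by rw [cell, cell, e])
  refine ⟨(t, r, q), ?_⟩
  simp only [cell]
  field_simp
  ring

theorem generic {P : Set ℂ} (hP : P.Countable) (y : ℂ) : ∃ u, ‖u‖ = 1 ∧
    ∀ m ∈ G.M (y - u * G.E (-1, false)) u, m ≠ y → ∀ p ∈ P, p ≠ y → G.Far m p := by
  have hL : (G.Lam : Set ℂ).Countable := countable_coe_iff.1
    (inferInstanceAs (Countable (Submodule.span ℤ (range G.E))))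
  have : (⋃ a ∈ (G.Lam : Set ℂ), ⋃ p ∈ P, ⋃ t : (ℤ × Bool) × (ℤ × Bool), {u : ℂ | a ≠ 0 ∧ p ≠ y ∧
      ‖u‖ = 1 ∧ ‖y + u * a - p‖ = ‖G.E t.1 - G.E t.2‖}).Countable := by
    refine hL.biUnion fun a _ => hP.biUnion fun p _ => countable_iUnion fun t => ?_
    by_cases c : a ≠ 0 ∧ p ≠ y
    · have h2 : (0 : ℂ) ≠ (p - y) / a := (div_ne_zero (sub_ne_zero.2 c.2) c.1).symm
      refine ((Four.circ h2 1 (‖G.E t.1 - G.E t.2‖ / ‖a‖)).subset fun u hu =>
        ⟨by simpa using hu.2.2.1, ?_⟩).countable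
      rw [← hu.2.2.2, dist_eq_norm, ← norm_div]
      congr 1
      have := c.1
      field_simp
      ring
    · exact countable_empty.mono fun u hu => c ⟨hu.1, hu.2.1⟩
  obtain ⟨θ, h⟩ := count_exp' this
  refine ⟨_, norm_exp_ofReal_mul_I θ, ?_⟩
  rintro _ ⟨a, ha, rfl⟩ h1 p hp h2 t _ r _ e
  refine h ?_
  simp only [mem_iUnion]
  refine ⟨a - G.E (-1, false), sub_mem ha (E_mem _), p, hp, (t, r), fun f => h1 ?_, h2,
    norm_exp_ofReal_mul_I θ, ?_⟩
  · rw [sub_eq_zero.1 f, sub_add_cancel]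
  · rw [← e]
    congr 1
    ring

/-- a congruent copy is a rotated and translated copy -/
theorem copy {e : ℤ × Bool → ℂ} (h : ∀ t ∈ L, ∀ r ∈ L, ‖e t - e r‖ = ‖G.E t - G.E r‖) :
    ∃ c u, ‖u‖ = 1 ∧ G.Win c u ⊆ e '' L := by
  have o : G.E (0, false) = 1 := by simp [E]
  have q : G.E (0, true) = G.s := by simp [E]
  have s1 : (G.s : ℂ) - 1 ≠ 0 := sub_ne_zero.2 fun f => by simpa using G.E_inj (q.trans (f.trans o.symm))
  obtain ⟨u, hu⟩ : ∃ u, u = (e (0, true) - e (0, false)) / (G.s - 1) := ⟨_, rfl⟩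
  have u1 : ‖u‖ = 1 := by
    rw [hu, norm_div, h _ (by decide) _ (by decide), o, q, div_self (norm_ne_zero_iff.2 s1)]
  have u0 : u ≠ 0 := by rintro rfl; simp at u1
  have key : ∀ t ∈ L, e t = G.cell (e (0, false) - u) u t ∨
      e t = G.cell (e (0, false) - u) u (-t.1, t.2) := fun t ht => by
    have := two_circ (w := (e t - (e (0, false) - u)) / u) (v := G.E t) (s := G.s)
      (fun f => s1 (by simp [f])) ?_ ?_
    · rw [conj_E, div_eq_iff u0, div_eq_iff u0] at this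
      exact this.imp (fun f => by rw [cell]; linear_combination f)
        fun f => by rw [cell]; linear_combination f
    · rw [← o, ← h t ht _ (by decide), o, ← div_one ‖e t - _‖, ← u1, ← norm_div]
      congr 1
      field_simp
      ring
    · rw [← q, ← h t ht _ (by decide), q, ← div_one ‖e t - _‖, ← u1, ← norm_div]
      congr 1
      rw [eq_div_iff s1] at hu
      field_simp
      linear_combination -hu
  refine ⟨e (0, false) - u, u, u1, ?_⟩
  rintro _ ⟨t, ht, rfl⟩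
  have ht' : (-t.1, t.2) ∈ L := by
    have := mem_L.1 ht
    exact mem_L.2 ⟨by omega, by omega, fun f => by simp [this.2.2 f]⟩
  rcases key t ht with a | a
  · exact ⟨t, ht, a⟩
  rcases key _ ht' with b | b
  · have := h t ht _ ht'
    rw [a, b, sub_self, norm_zero, eq_comm, norm_eq_zero, sub_eq_zero] at this
    exact ⟨t, ht, by rw [a, cell, cell, this]⟩
  · exact ⟨_, ht', by simpa using b⟩

end Dat

end Pool.Agent.MP_32430d_co.Six
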