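import Pool.Agent.MP_32430d_co.six.Zig

/-! Counting, the perpetual threats of the second player and those of the first player. -/

set_option autoImplicit false

open Set Complex

namespace Pool.Agent.MP_32430d_co.Six

theorem le3 {S : Set ℂ} {a b c : ℂ} (h : S ⊆ {a, b, c}) : S.ncard ≤ 3 := by
  have := ncard_le_ncard h (toFinite _)
  have := ncard_insert_le a ({b, c} : Set ℂ)
  have := ncard_insert_le b ({c} : Set ℂ)
  have := ncard_singleton c
  omega

theorem le4 {S : Set ℂ} {a b c d : ℂ} (h : S ⊆ {a, b, c, d}) : S.ncard ≤ 4 := by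
  have := ncard_le_ncard h (toFinite _)
  have := ncard_insert_le a ({b, c, d} : Set ℂ)
  have := le3 (subset_refl ({b, c, d} : Set ℂ))
  omega

namespace Dat

variable {G : Dat}

def Own (G : Dat) (P : Set ℂ) : Prop := ∃ W, G.IsW W ∧ W ⊆ P

/-- no copy free of points of `Y` has five points of `X` -/
def NoT (G : Dat) (X Y : Set ℂ) : Prop := ∀ W, G.IsW W → Disjoint W Y → (W ∩ X).ncard ≤ 4

theorem IsW.ins {W : Set ℂ} (h : G.IsW W) (X : Set ℂ) (x : ℂ) :
    (W ∩ insert x X).ncard ≤ (W ∩ X).ncard + 1 :=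
  (ncard_le_ncard (fun _ a => a.2.imp id fun b => ⟨a.1, b⟩)
    ((h.fin.inter_of_left X).insert x)).trans (ncard_insert_le _ _)

theorem IsW.miss {W X : Set ℂ} (h : G.IsW W) {p q : ℂ} (hp : p ∈ W) (hq : q ∈ W) (e : p ≠ q)
    (a : p ∉ X) (b : q ∉ X) : (W ∩ X).ncard ≤ 4 := by
  have h1 := ncard_sdiff (s := {p, q}) (t := W) (insert_subset hp (singleton_subset_iff.2 hq))
  rw [h.card, ncard_pair e] at h1
  refine (ncard_le_ncard ?_ h.fin.sdiff).trans h1.le
  rintro x ⟨c, d⟩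
  refine ⟨c, ?_⟩
  rintro (rfl | rfl)
  exacts [a d, b d]

theorem IsW.room {W X : Set ℂ} (h : G.IsW W) (k : (W ∩ X).ncard ≤ 5) : ∃ p ∈ W, p ∉ X := by
  by_contra! c
  rw [inter_eq_self_of_subset_left c, h.card] at k
  omega

theorem NoT.notOwn {X Y : Set ℂ} {x : ℂ} (h : G.NoT X Y) (d : Disjoint X Y) (hx : x ∉ Y) :
    ¬ G.Own (insert x X) := fun ⟨W, a, b⟩ => by
  have := h W a ((disjoint_insert_left.2 ⟨hx, d⟩).mono_left b)
  have := a.ins X x
  obtain ⟨p, c, e⟩ := a.room (X := insert x X) (by omega)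
  exact e (b c)

theorem live {W Y : Set ℂ} {p : ℂ} (h : Disjoint W (insert p Y)) : Disjoint W Y :=
  h.mono_right (subset_insert _ _)

/-- the second player has just made a threat on his ray -/
def P4 (G : Dat) (X Y : Set ℂ) : Prop := ∃ (c u : ℂ) (δ k : ℤ), ‖u‖ = 1 ∧ (δ = 1 ∨ δ = -1) ∧
  (∀ m, -2 ≤ m → m ≤ 2 → G.cell c u (k + δ * m, false) ∈ Y) ∧
  (∀ m, 3 ≤ m → G.cell c u (k + δ * m, false) ∉ X) ∧
  (∀ m, 0 ≤ m → G.cell c u (k + δ * m, true) ∉ X ∧ ∀ W, G.IsW W → Disjoint W Y →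
    G.cell c u (k + δ * m, true) ∈ W → (W ∩ X).ncard ≤ 3) ∧ G.NoT X Y

theorem ready {X Y : Set ℂ} {c u : ℂ} {δ k : ℤ} (hu : ‖u‖ = 1) (hδ : δ = 1 ∨ δ = -1)
    (h1 : ∀ m, -2 ≤ m → m ≤ 1 → G.cell c u (k + δ * m, false) ∈ Y)
    (h2 : ∀ m, 2 ≤ m → G.cell c u (k + δ * m, false) ∉ X)
    (h3 : ∀ m, 0 ≤ m → G.cell c u (k + δ * m, true) ∉ X ∧ ∀ W, G.IsW W → Disjoint W Y →
      G.cell c u (k + δ * m, true) ∈ W → (W ∩ X).ncard ≤ 3) (h4 : G.NoT X Y) :
    ∃ p, p ∉ X ∧ G.P4 X (insert p Y) := by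
  refine ⟨_, h2 2 le_rfl, c, u, δ, k, hu, hδ, fun m a b => ?_, fun m a => h2 m (by omega),
    fun m a => ⟨(h3 m a).1, fun W b d => (h3 m a).2 W b (live d)⟩, fun W b d => h4 W b (live d)⟩
  rcases b.lt_or_eq with b | rfl
  exacts [Or.inr (h1 m a (by omega)), Or.inl rfl]

theorem step5 {X Y : Set ℂ} {x : ℂ} (h : G.Own Y) (d : Disjoint X Y) (hx : x ∉ Y) :
    ∃ p, p ∉ insert x X ∧ G.Own (insert p Y) := by
  obtain ⟨_, ⟨c, u, hu, rfl⟩, b⟩ := h
  have : G.cell c u (0, true) ∈ Y := b ⟨_, by decide, rfl⟩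
  exact ⟨_, fun e => disjoint_left.1 (disjoint_insert_left.2 ⟨hx, d⟩) e this,
    _, ⟨c, u, hu, rfl⟩, b.trans (subset_insert _ _)⟩

theorem step4 {X Y : Set ℂ} {x : ℂ} (h : G.P4 X Y) (d : Disjoint X Y) (hx : x ∉ Y) :
    ¬ G.Own (insert x X) ∧ ∃ p, p ∉ insert x X ∧
      (G.P4 (insert x X) (insert p Y) ∨ G.Own (insert p Y)) := by
  obtain ⟨c, u, δ, k, hu, hδ, h1, h2, h3, h4⟩ := h
  refine ⟨h4.notOwn d hx, ?_⟩
  have h0 := h3 0 le_rfl
  rw [mul_zero, add_zero] at h0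
  by_cases e : x = G.cell c u (k, true)
  · subst e
    have r : ∀ m, k + δ + δ * m = k + δ * (m + 1) := fun m => by ring
    have n : ∀ m, 0 ≤ m → k + δ * (m + 1) ≠ k := fun m a => by rcases hδ with rfl | rfl <;> omega
    refine (ready (k := k + δ) hu hδ (fun m a b => r m ▸ h1 _ (by omega) (by omega))
      (fun m a => ?_) (fun m a => ⟨?_, fun W b f g => ?_⟩) fun W b f => ?_).imp
      fun p a => ⟨a.1, Or.inl a.2⟩
    · rw [r]
      exact fun f => f.elim (fun f => by simpa using G.cell_inj c hu f) (h2 _ (by omega))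
    · rw [r]
      exact fun f => f.elim (fun f => n m a (by simpa using G.cell_inj c hu f))
        (h3 _ (by omega)).1
    · rw [r] at g
      rw [inter_insert_of_notMem fun f => n m a (b.qq hu g f)]
      exact (h3 _ (by omega)).2 W b f g
    · by_cases g : G.cell c u (k, true) ∈ W
      · exact (b.ins _ _).trans (Nat.succ_le_succ (h0.2 W b f g))
      · rw [inter_insert_of_notMem g]
        exact h4 W b f
  · refine ⟨G.cell c u (k, true), fun f => f.elim (Ne.symm e) h0.1, Or.inr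
      ⟨_, ⟨c, _, G.norm_uz hu k, rfl⟩, fun p a => ?_⟩⟩
    rcases G.mem_Win.1 a with ⟨j, a1, a2, rfl⟩ | rfl
    · have := h1 (δ * (j - k)) (by rcases hδ with rfl | rfl <;> omega)
        (by rcases hδ with rfl | rfl <;> omega)
      rw [show k + δ * (δ * (j - k)) = j by rcases hδ with rfl | rfl <;> omega] at this
      exact Or.inr this
    · exact Or.inl rfl

/-- the points of the first player on one of his circle systems -/
def Run (G : Dat) (a v : ℂ) (X Y : Set ℂ) : Prop := ∀ k : ℤ, Disjoint (G.Win a (v * G.z ^ k)) Y →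
  G.cell a v (k, true) ∉ X ∧ ∃ δ : ℤ, (δ = 1 ∨ δ = -1) ∧ ∀ m, 2 ≤ m → G.cell a v (k + δ * m, false) ∉ X

theorem g_mem {a v : ℂ} {k δ m : ℤ} (hδ : δ = 1 ∨ δ = -1) (h1 : -2 ≤ m) (h2 : m ≤ 2) :
    G.cell a v (k + δ * m, false) ∈ G.Win a (v * G.z ^ k) :=
  G.mem_Win.2 (Or.inl ⟨_, by rcases hδ with rfl | rfl <;> omega,
    by rcases hδ with rfl | rfl <;> omega, rfl⟩)

theorem Run.le {a v : ℂ} {X Y : Set ℂ} (h : G.Run a v X Y) (hv : ‖v‖ = 1) {k : ℤ}
    (d : Disjoint (G.Win a (v * G.z ^ k)) Y) : (G.Win a (v * G.z ^ k) ∩ X).ncard ≤ 4 := by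
  obtain ⟨h1, δ, hδ, h2⟩ := h k d
  exact IsW.miss ⟨_, _, G.norm_uz hv k, rfl⟩ (G.mem_Win.2 (Or.inr rfl))
    (g_mem hδ (m := 2) (by omega) le_rfl) (fun e => by simpa using G.cell_inj a hv e) h1
    (h2 2 le_rfl)

theorem Run.start {a v : ℂ} {X Y : Set ℂ} (hv : ‖v‖ = 1)
    (h : ∀ t, G.cell a v t ∈ X → G.cell a v t ∈ G.Win a v) (d : ¬ Disjoint (G.Win a v) Y) :
    G.Run a v X Y := fun k l => by
  have k0 : k ≠ 0 := by
    rintro rfl
    exact d (by simpa using l)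
  have m : ∀ t, G.cell a v t ∈ X → t ∈ L := fun t e => by
    obtain ⟨r, b, c⟩ := h t e
    exact G.cell_inj a hv c ▸ b
  refine ⟨fun e => k0 ((mem_L.1 (m _ e)).2.2 rfl), ?_⟩
  rcases k0.lt_or_gt with b | b
  · exact ⟨-1, Or.inr rfl, fun j c e => by have := (mem_L.1 (m _ e)).1; omega⟩
  · exact ⟨1, Or.inl rfl, fun j c e => by have := (mem_L.1 (m _ e)).2.1; omega⟩

theorem Run.step {a v x : ℂ} {X Y : Set ℂ} (h : G.Run a v X Y) (hv : ‖v‖ = 1) {k : ℤ}
    (d : Disjoint (G.Win a (v * G.z ^ k)) Y)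
    (t : 5 ≤ (G.Win a (v * G.z ^ k) ∩ insert x X).ncard) :
    ∃ p, p ∉ insert x X ∧ G.Run a v (insert x X) (insert p Y) := by
  obtain ⟨h1, δ, hδ, h2⟩ := h k d
  have w : G.IsW (G.Win a (v * G.z ^ k)) := ⟨_, _, G.norm_uz hv k, rfl⟩
  have q : G.cell a v (k, true) ∈ G.Win a (v * G.z ^ k) := G.mem_Win.2 (Or.inr rfl)
  have g := g_mem (G := G) (a := a) (v := v) (k := k) hδ (m := 2) (by omega) le_rfl
  have ne : ∀ i j, G.cell a v (i, false) ≠ G.cell a v (j, true) :=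
    fun i j e => by simpa using G.cell_inj a hv e
  by_cases e : x = G.cell a v (k, true)
  · subst e
    refine ⟨_, fun f => f.elim (ne _ _) (h2 2 le_rfl), fun j l => ?_⟩
    obtain ⟨k1, ε, hε, k2⟩ := h j (live l)
    refine ⟨fun f => f.elim (fun f => ?_) k1, ε, hε, fun m b f => f.elim (ne _ _) (k2 m b)⟩
    obtain rfl : j = k := by simpa using G.cell_inj a hv f
    exact disjoint_left.1 l g (Or.inl rfl)
  have q' : G.cell a v (k, true) ∉ insert x X := fun f => f.elim (Ne.symm e) h1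
  have all : ∀ m, -2 ≤ m → m ≤ 2 → G.cell a v (k + δ * m, false) ∈ insert x X := fun m b c => by
    by_contra f
    have := w.miss (g_mem hδ b c) q (ne _ _) f q'
    omega
  obtain rfl : G.cell a v (k + δ * 2, false) = x := (all 2 (by omega) le_rfl).resolve_right
    (h2 2 le_rfl)
  have one : G.cell a v (k + δ * 1, false) ∈ X := (all 1 (by omega) (by omega)).resolve_left
    fun f => by
      have : k + δ * 1 = k + δ * 2 := congrArg Prod.fst (G.cell_inj a hv f)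
      omega
  refine ⟨_, q', fun j l => ?_⟩
  obtain ⟨k1, ε, hε, k2⟩ := h j (live l)
  refine ⟨fun f => f.elim (ne _ _).symm k1, ε, hε, fun m b f => f.elim (fun f => ?_) (k2 m b)⟩
  have f' : j + ε * m = k + δ * 2 := congrArg Prod.fst (G.cell_inj a hv f)
  have jk : j ≠ k := by
    rintro rfl
    exact disjoint_left.1 l q (Or.inl rfl)
  by_cases s : ε = δ
  · refine k2 (m - 1) (by rcases hδ with rfl | rfl <;> subst s <;> omega) ?_
    rwa [show j + ε * (m - 1) = k + δ * 1 by rcases hδ with rfl | rfl <;> subst s <;> omega]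
  · refine k2 (m + 1) (by omega) ?_
    rwa [show j + ε * (m + 1) = k + δ * 1 by
      rcases hδ with rfl | rfl <;> rcases hε with rfl | rfl <;> omega]

end Dat

end Pool.Agent.MP_32430d_co.Six
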