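import Pool.Agent.MP_32430d_co.six.Early
import Pool.Agent.MP_32430d_co.six.Draw
import Mathlib.Algebra.AlgebraicCard
import Mathlib.Algebra.FreeAlgebra.Cardinality
import Mathlib.RingTheory.AlgebraTower
import Mathlib.LinearAlgebra.Basis.VectorSpace

/-! Generic parameters, and the transfer to the Euclidean plane. -/

set_option autoImplicit false

open Set Complex Polynomial

namespace Pool.Agent.MP_32430d_co.Six

theorem dat {z : ℂ} {s : ℝ} (hz : ‖z‖ = 1)
    (h : LinearIndependent ℚ fun p : Fin 3 × ℤ => z ^ p.2 * (s : ℂ) ^ (p.1 : ℕ)) :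
    ∃ G : Dat, G.z = z ∧ G.s = s := by
  have : ∀ q : Fin 3 × ℤ, ∃ f : ℂ →ₗ[ℚ] ℚ, ∀ p : Fin 3 × ℤ,
      f (z ^ p.2 * (s : ℂ) ^ (p.1 : ℕ)) = if p = q then 1 else 0 := fun q => by
    obtain ⟨f, hf⟩ := LinearMap.exists_extend ((Finsupp.lapply q).comp h.repr)
    refine ⟨f, fun p => ?_⟩
    have := LinearMap.congr_fun hf ⟨_, Submodule.subset_span ⟨p, rfl⟩⟩
    rw [LinearMap.comp_apply, LinearMap.comp_apply, h.repr_eq_single p _ rfl] at this
    simpa [Finsupp.single_apply] using this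
  choose f hf using this
  refine ⟨⟨z, s, hz, fun b => (f (if b then 2 else 0, 0)).toAddMonoidHom, fun b k => ?_,
    fun b k => ?_, fun b k => ?_⟩, rfl, rfl⟩
  · cases b
    exacts [by simpa using hf (0, 0) (0, k), by simpa using hf (2, 0) (0, k)]
  · cases b
    exacts [by simpa using hf (0, 0) (1, k), by simpa using hf (2, 0) (1, k)]
  · cases b
    exacts [by simpa using hf (0, 0) (2, k), by simpa using hf (2, 0) (2, k)]

theorem zpow_li {K : Type} [CommRing K] [Algebra K ℂ] {z : ℂ} (h0 : z ≠ 0)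
    (h : Transcendental K z) : LinearIndependent K fun k : ℤ => z ^ k := by
  refine linearIndependent_iff'.2 fun t g e i hi => ?_
  obtain ⟨N, hN⟩ := t.bddBelow
  have hN' : ∀ k ∈ t, (((k - N).toNat : ℕ) : ℤ) = k - N := fun k a => by
    have := hN a
    omega
  have p := transcendental_iff.1 h (∑ k ∈ t, monomial (k - N).toNat (g k)) (by
    rw [map_sum, ← mul_zero (z ^ (-N)), ← e, Finset.mul_sum]
    refine Finset.sum_congr rfl fun k a => ?_
    rw [aeval_monomial, ← zpow_natCast, hN' k a, Algebra.smul_def, sub_eq_add_neg, zpow_add₀ h0]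
    ring)
  have q := congrArg (coeff · (i - N).toNat) p
  simp only [finsetSum_coeff, coeff_monomial, coeff_zero] at q
  rwa [Finset.sum_eq_single i (fun k a b => if_neg fun f => b (by
    have := hN' k a
    have := hN' i hi
    omega)) (fun a => absurd hi a), if_pos rfl] at q

theorem li {s : ℝ} (hs : LinearIndependent ℚ fun j : Fin 3 => s ^ (j : ℕ)) :
    ∃ S : Set ℂ, S.Countable ∧ ∀ z, z ∉ S → z ≠ 0 →
      LinearIndependent ℚ fun p : Fin 3 × ℤ => z ^ p.2 * (s : ℂ) ^ (p.1 : ℕ) := by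
  have : Countable (Algebra.adjoin ℚ {(s : ℂ)}) := Cardinal.mk_le_aleph0_iff.1
    ((Algebra.cardinalMk_adjoin_le ℚ _).trans (by simp))
  refine ⟨_, Algebraic.countable (Algebra.adjoin ℚ {(s : ℂ)}) ℂ, fun z h h0 => ?_⟩
  have a : LinearIndependent ℚ fun j : Fin 3 =>
      (⟨s, Algebra.subset_adjoin rfl⟩ : Algebra.adjoin ℚ {(s : ℂ)}) ^ (j : ℕ) := by
    refine LinearIndependent.of_comp (Algebra.adjoin ℚ {(s : ℂ)}).val.toLinearMap ?_
    have := hs.map' (ofRealAm.toLinearMap.restrictScalars ℚ)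
      (LinearMap.ker_eq_bot.2 ofReal_injective)
    simpa [Function.comp_def] using this
  simpa [mul_comm, Algebra.smul_def] using linearIndependent_smul a (zpow_li h0 h)

/-- the labels in their order -/
def lab : Fin 6 → ℤ × Bool :=
  ![(-2, false), (-1, false), (0, false), (1, false), (2, false), (0, true)]

def idx (t : ℤ × Bool) : Fin 6 := if t.2 then 5 else ⟨(t.1 + 2).toNat % 6, Nat.mod_lt _ (by decide)⟩

theorem own_iff (G : Dat) {g : Fin 6 → EuclideanSpace ℝ (Fin 2)}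
    (hg : ∀ a, orthonormalBasisOneI.repr.symm (g a) = G.E (lab a))
    (P : Set (EuclideanSpace ℝ (Fin 2))) :
    (∃ e : Fin 6 → EuclideanSpace ℝ (Fin 2), (∀ a b, dist (e a) (e b) = dist (g a) (g b)) ∧
      ∀ a, e a ∈ P) ↔ G.Own (orthonormalBasisOneI.repr.symm '' P) := by
  set f := orthonormalBasisOneI.repr
  constructor
  · rintro ⟨e, h1, h2⟩
    have k : ∀ t ∈ L, lab (idx t) = t := by decide
    obtain ⟨c, u, hu, h⟩ := G.copy (e := fun t => f.symm (e (idx t))) fun t a r b => by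
      rw [← dist_eq_norm, f.symm.dist_map, h1, ← f.symm.dist_map, hg, hg, k t a, k r b,
        dist_eq_norm]
    exact ⟨_, ⟨c, u, hu, rfl⟩, h.trans fun _ ⟨t, _, b⟩ => ⟨_, h2 _, b⟩⟩
  · rintro ⟨_, ⟨c, u, hu, rfl⟩, h⟩
    have k : ∀ a, lab a ∈ L := by decide
    refine ⟨fun a => f (G.cell c u (lab a)), fun a b => ?_, fun a => ?_⟩
    · rw [f.dist_map, ← f.symm.dist_map, hg, hg, dist_eq_norm, dist_eq_norm]
      exact Dat.norm_cell c hu _ _
    · obtain ⟨x, b, d⟩ := h ⟨_, k a, rfl⟩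
      show f (G.cell c u (lab a)) ∈ P
      rw [← d]
      simpa using b

theorem main (G : Dat) {g : Fin 6 → EuclideanSpace ℝ (Fin 2)}
    (hg : ∀ a, orthonormalBasisOneI.repr.symm (g a) = G.E (lab a)) :
    ¬ ∃ σ : List (EuclideanSpace ℝ (Fin 2)) → EuclideanSpace ℝ (Fin 2),
      ∀ x : ℕ → EuclideanSpace ℝ (Fin 2),
        (∀ k : ℕ, x (2 * k) = σ (List.ofFn (fun i : Fin (2 * k) => x i))) →
        (∀ k : ℕ, ∀ j : ℕ, j < 2 * k + 1 → x (2 * k + 1) ≠ x j) →
        (∀ k : ℕ, ∀ j : ℕ, j < 2 * k → x (2 * k) ≠ x j) ∧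
        ∃ n : ℕ,
          (∃ e : Fin 6 → EuclideanSpace ℝ (Fin 2),
            (∀ a b : Fin 6, dist (e a) (e b) = dist (g a) (g b)) ∧
            ∀ a : Fin 6, ∃ i : ℕ, i ≤ n ∧ e a = x (2 * i)) ∧
          ¬ (∃ e : Fin 6 → EuclideanSpace ℝ (Fin 2),
            (∀ a b : Fin 6, dist (e a) (e b) = dist (g a) (g b)) ∧
            ∀ a : Fin 6, ∃ i : ℕ, i < n ∧ e a = x (2 * i + 1)) := by
  set f := orthonormalBasisOneI.repr
  refine draw (Own := fun P => ∃ e : Fin 6 → EuclideanSpace ℝ (Fin 2),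
    (∀ a b, dist (e a) (e b) = dist (g a) (g b)) ∧ ∀ a, e a ∈ P)
    (Inv := fun X Y => G.Inv (f.symm '' X) (f.symm '' Y))
    (fun P Q h ⟨e, a, b⟩ => ⟨e, a, fun i => h (b i)⟩) (Or.inl (image_empty _))
    fun X Y x h d h1 h2 => ?_
  obtain ⟨a, p, b, c⟩ := G.step _ _ (f.symm x) h ((disjoint_image_iff f.symm.injective).2 d)
    (by simpa using h1) (by simpa using h2)
  obtain ⟨p, rfl⟩ := f.symm.surjective p
  rw [← image_insert_eq] at a b c
  rw [← image_insert_eq] at c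
  rw [own_iff G hg, own_iff G hg]
  exact ⟨a, p, fun e => b (mem_image_of_mem _ e), c⟩

theorem inj (G : Dat) {g : Fin 6 → EuclideanSpace ℝ (Fin 2)}
    (hg : ∀ a, orthonormalBasisOneI.repr.symm (g a) = G.E (lab a)) : Function.Injective g :=
  fun a b e => (by decide : Function.Injective lab) (G.E_inj (by rw [← hg, ← hg, e]))

theorem params {s : ℝ} (hs : LinearIndependent ℚ fun j : Fin 3 => s ^ (j : ℕ)) :
    ∃ C : Set ℝ, C.Countable ∧ ∀ θ : ℝ, θ ∉ C → ∀ g : Fin 6 → EuclideanSpace ℝ (Fin 2),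
      (∀ j : Fin 6, j ≠ 5 → g j 0 = Real.cos ((((j : ℕ) : ℝ) - 2) * θ) ∧
        g j 1 = Real.sin ((((j : ℕ) : ℝ) - 2) * θ)) → g 5 0 = s → g 5 1 = 0 →
      ∃ G : Dat, ∀ a, orthonormalBasisOneI.repr.symm (g a) = G.E (lab a) := by
  obtain ⟨S, h1, h2⟩ := li hs
  refine ⟨_, count_exp h1, fun θ hθ g a b c => ?_⟩
  obtain ⟨G, e1, e2⟩ := dat (norm_exp_ofReal_mul_I θ) (h2 _ hθ (exp_ne_zero _))
  refine ⟨G, fun j => ?_⟩
  rw [orthonormalBasisOneI_repr_symm_apply]
  by_cases h : j = 5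
  · subst h
    simp [b, c, lab, Dat.E, e2]
  · have k : ∀ j : Fin 6, j ≠ 5 → lab j = (((j : ℕ) : ℤ) - 2, false) := by decide
    rw [(a j h).1, (a j h).2, k j h, G.E_f, e1, ← exp_int_mul, ← mul_assoc, exp_mul_I]
    push_cast
    rfl

end Pool.Agent.MP_32430d_co.Six
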