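import Pool.Agent.MP_32430d_co.six.Geo

/-! The zigzag of circles of the second player. -/

set_option autoImplicit false

open Set Complex

namespace Pool.Agent.MP_32430d_co.Six

def eps (i : ℤ) : ℤ := 1 - 2 * (i % 2)

def Outer (t : ℤ × Bool) : Prop := t ≠ (-1, false) ∧ t ≠ (0, false) ∧ t ≠ (1, false)

theorem eps_cases (i : ℤ) : eps i = 1 ∨ eps i = -1 := by
  unfold eps
  omega

namespace Dat

variable (G : Dat)

noncomputable def cc (i : ℤ) : ℂ :=
  (-(i / 2)) • G.E (-1, false) + (i % 2) • G.E (0, false) + ((i + 1) / 2) • G.E (1, false)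

noncomputable def zc (i : ℤ) (t : ℤ × Bool) : ℂ := G.cc i + eps i • G.E t

noncomputable def T : ℂ →+ ℂ →+ ℚ := G.B false + G.B true

def Bl (c u : ℂ) (n : ℤ) (β : ℤ → ℤ × Bool) : Set ℂ := {p | ∃ i < n, p = c + u * G.zc i (β i)}

theorem T_E (t r : ℤ × Bool) : G.T (G.E t) (G.E r) = if t = r then 1 else 0 := by
  simp only [T, AddMonoidHom.add_apply, B_E]
  rcases t with ⟨k, _ | _⟩ <;> simp

theorem zc_mem (i : ℤ) (t : ℤ × Bool) : G.zc i t ∈ G.Lam :=
  add_mem (add_mem (add_mem (Submodule.smul_mem _ _ (E_mem _)) (Submodule.smul_mem _ _ (E_mem _)))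
    (Submodule.smul_mem _ _ (E_mem _))) (Submodule.smul_mem _ _ (E_mem _))

theorem zc_zero (t : ℤ × Bool) : G.zc 0 t = G.E t := by simp [zc, cc, eps]

theorem cell_zc (c u : ℂ) (i : ℤ) (t : ℤ × Bool) :
    G.cell (c + u * G.cc i) (u * eps i) t = c + u * G.zc i t := by
  rw [cell, zc, zsmul_eq_mul]
  ring

theorem zc_succ (n : ℤ) : G.zc (n + 1) (0, false) = G.zc n (eps n, false) ∧
    G.zc (n + 1) (eps n, false) = G.zc n (0, false) := by
  obtain ⟨m, rfl | rfl⟩ := Int.even_or_odd' n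
  · simp only [zc, cc, eps, show (2 * m + 1) / 2 = m by omega, show 2 * m / 2 = m by omega,
      show (2 * m + 1 + 1) / 2 = m + 1 by omega, show (2 * m + 1) % 2 = 1 by omega,
      show 2 * m % 2 = 0 by omega, zsmul_eq_mul]
    norm_num
    constructor <;> ring
  · simp only [zc, cc, eps, show (2 * m + 1) / 2 = m by omega,
      show (2 * m + 1 + 1 + 1) / 2 = m + 1 by omega,
      show (2 * m + 1 + 1) / 2 = m + 1 by omega, show (2 * m + 1) % 2 = 1 by omega,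
      show (2 * m + 1 + 1) % 2 = 0 by omega, zsmul_eq_mul]
    norm_num
    constructor <;> ring

theorem zc_two (i : ℤ) (t : ℤ × Bool) :
    G.zc (i + 2) t = G.zc i t + (G.E (1, false) - G.E (-1, false)) := by
  simp only [zc, cc, eps, show (i + 2) / 2 = i / 2 + 1 by omega, show (i + 2) % 2 = i % 2 by omega,
    show (i + 2 + 1) / 2 = (i + 1) / 2 + 1 by omega, zsmul_eq_mul]
  push_cast
  ring

variable {G}

theorem zc_ne {i n : ℤ} {τ : ℤ × Bool} (h : Outer τ) (t : ℤ × Bool)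
    (e : G.zc i τ = G.zc n t) : i = n := by
  obtain ⟨h1, h2, h3⟩ := h
  have a := congrArg (G.T · (G.E τ)) e
  have b := congrArg (G.T · (G.E (-1, false))) e
  simp only [zc, cc, map_add, map_zsmul, AddMonoidHom.add_apply, AddMonoidHom.smul_apply,
    T_E] at a b
  by_cases c : t = τ
  · simp [h1, h1.symm, h2.symm, h3.symm, c, eps] at a b
    have a' : i % 2 = n % 2 := by exact_mod_cast a
    omega
  · simp [h1.symm, h2.symm, h3.symm, c] at a
    rcases eps_cases i with h | h <;> omega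

theorem zc_rel {i j : ℤ} {τ σ : ℤ × Bool} (hij : i < j) (h : Outer τ) (h' : Outer σ)
    (e : G.T (G.zc i τ - G.zc j σ) (G.zc i τ - G.zc j σ) ≤ 2) : j = i + 2 ∧ σ = τ := by
  obtain ⟨h1, h2, h3⟩ := h
  obtain ⟨k1, k2, k3⟩ := h'
  have : G.T (G.zc i τ - G.zc j σ) (G.zc i τ - G.zc j σ) = (((j / 2 - i / 2) ^ 2 +
      (i % 2 - j % 2) ^ 2 + ((i + 1) / 2 - (j + 1) / 2) ^ 2 + eps i ^ 2 + eps j ^ 2 -
      (if σ = τ then 2 * eps i * eps j else 0) : ℤ) : ℚ) := by
    simp only [zc, cc, map_add, map_sub, map_zsmul, AddMonoidHom.add_apply,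
      AddMonoidHom.sub_apply, AddMonoidHom.smul_apply, T_E]
    by_cases c : σ = τ
    · simp [h1, h2, h3, h1.symm, h2.symm, h3.symm, c]
      ring
    · simp [h1, h2, h3, h1.symm, h2.symm, h3.symm, k1, k2, k3, k1.symm, k2.symm,
        k3.symm, c, Ne.symm c]
      ring
  rw [this] at e
  have e' : (j / 2 - i / 2) ^ 2 + (i % 2 - j % 2) ^ 2 + ((i + 1) / 2 - (j + 1) / 2) ^ 2 +
      eps i ^ 2 + eps j ^ 2 - (if σ = τ then 2 * eps i * eps j else 0) ≤ 2 := by exact_mod_cast e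
  have p1 := sq_nonneg (j / 2 - i / 2)
  have p2 := sq_nonneg (i % 2 - j % 2)
  have p3 := sq_nonneg ((i + 1) / 2 - (j + 1) / 2)
  by_cases c : σ = τ
  · refine ⟨?_, c⟩
    rw [if_pos c] at e'
    rcases eps_cases i with a | a <;> rcases eps_cases j with b | b <;> rw [a, b] at e'
    · have : j / 2 - i / 2 ≤ 1 := by nlinarith
      unfold eps at a b
      omega
    · linarith
    · linarith
    · have : j / 2 - i / 2 ≤ 1 := by nlinarith
      unfold eps at a b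
      omega
  · rw [if_neg c] at e'
    have : eps i ^ 2 + eps j ^ 2 = 2 := by
      rcases eps_cases i with a | a <;> rcases eps_cases j with b | b <;> simp [a, b]
    have q1 : j / 2 - i / 2 = 0 := pow_eq_zero_iff two_ne_zero |>.1 (by linarith)
    have q2 : i % 2 - j % 2 = 0 := pow_eq_zero_iff two_ne_zero |>.1 (by linarith)
    omega

theorem IsW.pair {W : Set ℂ} (h : G.IsW W) {c u : ℂ} (hu : ‖u‖ = 1) {i j : ℤ} {τ σ : ℤ × Bool}
    (hij : i < j) (h1 : Outer τ) (h2 : Outer σ) (a : c + u * G.zc i τ ∈ W)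
    (b : c + u * G.zc j σ ∈ W) : j = i + 2 ∧ W ⊆ G.M c u := by
  obtain ⟨rfl, rfl⟩ : j = i + 2 ∧ σ = τ := by
    obtain ⟨c', u', hu', rfl⟩ := h
    exact zc_rel hij h1 h2 (rel hu' a b (norm_cell c hu _ _)).1
  exact ⟨rfl, h.sub hu ⟨_, G.zc_mem _ _, rfl⟩ a (by rwa [zc_two, mul_add, ← add_assoc] at b)⟩

/-- what the later phases use about the blocks `B`, the free stone `w` and the last circle -/
structure Good (G : Dat) (M B : Set ℂ) (w c u : ℂ) : Prop where
  hu : ‖u‖ = 1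
  cM : ∀ t, G.cell c u t ∈ M
  BM : B ⊆ M
  wM : w ∉ M
  cB : ∀ t, G.cell c u t ∉ B
  b3 : ∀ W, G.IsW W → (∃ b, W ∩ B ⊆ {b}) ∨ (w ∉ W ∧ ∃ b b', W ∩ B ⊆ {b, b'})
  b4 : ∀ W, G.IsW W → ∀ j, G.cell c u (j, true) ∈ W →
    W ∩ B ⊆ ∅ ∨ (w ∉ W ∧ ∃ b, W ∩ B ⊆ {b})

theorem good {c u w : ℂ} (hu : ‖u‖ = 1) (hw : w ∉ G.M c u) {β : ℤ → ℤ × Bool}
    (hβ : ∀ i, Outer (β i)) (n : ℤ) :
    Good G (G.M c u) (G.Bl c u n β) w (c + u * G.cc n) (u * eps n) where
  hu := by rcases eps_cases n with h | h <;> simp [h, hu]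
  cM := fun t => ⟨_, G.zc_mem _ _, G.cell_zc _ _ _ _⟩
  BM := fun _ ⟨_, _, e⟩ => ⟨_, G.zc_mem _ _, e⟩
  wM := hw
  cB := fun t ⟨i, a, e⟩ => by
    rw [cell_zc] at e
    exact a.ne (zc_ne (hβ i) t
      (mul_left_cancel₀ (by rintro rfl; simp at hu) (add_left_cancel e)).symm)
  b3 := fun W h => by
    by_cases k : ∃ i j, i < j ∧ c + u * G.zc i (β i) ∈ W ∧ c + u * G.zc j (β j) ∈ W
    · obtain ⟨i, j, a1, a2, a3⟩ := k
      obtain ⟨rfl, s⟩ := h.pair hu a1 (hβ _) (hβ _) a2 a3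
      refine Or.inr ⟨fun e => hw (s e), c + u * G.zc i (β i), c + u * G.zc (i + 2) (β (i + 2)), ?_⟩
      rintro _ ⟨a, k, -, rfl⟩
      rcases lt_trichotomy k i with d | rfl | d
      · have := (h.pair hu d (hβ _) (hβ _) a a2).1
        have := (h.pair hu (d.trans a1) (hβ _) (hβ _) a a3).1
        omega
      · exact Or.inl rfl
      · exact Or.inr (by rw [(h.pair hu d (hβ _) (hβ _) a2 a).1]; rfl)
    · left
      rcases (W ∩ G.Bl c u n β).eq_empty_or_nonempty with e | ⟨_, a, i, -, rfl⟩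
      · exact ⟨0, by simp [e]⟩
      refine ⟨c + u * G.zc i (β i), ?_⟩
      rintro _ ⟨b, j, -, rfl⟩
      rcases lt_trichotomy j i with d | rfl | d
      exacts [absurd ⟨_, _, d, b, a⟩ k, rfl, absurd ⟨_, _, d, a, b⟩ k]
  b4 := fun W h j q => by
    rw [cell_zc] at q
    have o : Outer (j, true) := by simp [Outer]
    rcases (W ∩ G.Bl c u n β).eq_empty_or_nonempty with e | ⟨_, a, i, d, rfl⟩
    · exact Or.inl e.le
    obtain ⟨rfl, s⟩ := h.pair hu d (hβ _) o a q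
    refine Or.inr ⟨fun e => hw (s e), c + u * G.zc i (β i), ?_⟩
    rintro _ ⟨b, k, d', rfl⟩
    obtain rfl : i = k := by have := (h.pair hu d' (hβ _) o b q).1; omega
    rfl

end Dat

end Pool.Agent.MP_32430d_co.Six
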